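import Pool.Agent.Helper99.SZ.Stmts4
import Pool.Agent.Helper24.SZ.CU2

/-! Module QCU: the prime ideals of a quadratic field belonging to the primes `p_j`. -/

set_option autoImplicit false

namespace Pool.Helper99.SZ

open NumberField

theorem qcu_dvd {K : Type} [Field K] [NumberField K] (P : Ideal (𝓞 K)) (hP : P.IsPrime)
    (hb : P ≠ ⊥) (p : ℕ) (κ g : 𝓞 K) (D : ℤ)
    (hD : κ * g = (D : 𝓞 K)) (hg : g ∉ P) (e v : ℕ) (hv : (p : ℤ) ^ v ∣ D)
    (he : P ^ e ∣ Ideal.span {(p : 𝓞 K)}) : P ^ (e * v) ∣ Ideal.span {κ} := by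
  have hPp : Prime P := Ideal.prime_of_isPrime hb hP
  have h1 : P ^ (e * v) ∣ Ideal.span {κ} * Ideal.span {g} := by
    rw [Ideal.span_singleton_mul_span_singleton, hD]
    obtain ⟨w, hw⟩ := hv
    have h2 : Ideal.span {(D : 𝓞 K)} = Ideal.span {(p : 𝓞 K)} ^ v * Ideal.span {(w : 𝓞 K)} := by
      rw [Ideal.span_singleton_pow, Ideal.span_singleton_mul_span_singleton, hw]
      push_cast
      rfl
    rw [h2, pow_mul]
    exact Dvd.dvd.mul_right (pow_dvd_pow_of_dvd he v) _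
  refine Prime.pow_dvd_of_dvd_mul_right hPp _ ?_ h1
  rw [Ideal.dvd_span_singleton]
  exact hg

theorem qcu_norm {K : Type} [Field K] [NumberField K] (hK : Module.finrank ℚ K = 2)
    (P : Ideal (𝓞 K)) (hP : P.IsPrime) (p : ℕ) (hp : p.Prime) (hpP : (p : 𝓞 K) ∈ P) :
    ∃ f : ℕ, 1 ≤ f ∧ Ideal.absNorm P = p ^ f := by
  have h1 : Ideal.absNorm (Ideal.span {(p : 𝓞 K)}) = p ^ 2 := by
    rw [Ideal.absNorm_span_singleton]
    have h2 : ((p : ℕ) : 𝓞 K) = algebraMap ℤ (𝓞 K) (p : ℤ) := by simp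
    rw [h2, Algebra.norm_algebraMap, RingOfIntegers.rank, hK, Int.natAbs_pow, Int.natAbs_natCast]
  have h3 : Ideal.absNorm P ∣ p ^ 2 := by
    rw [← h1]
    apply Ideal.absNorm_dvd_absNorm_of_le
    rw [Ideal.span_le]
    simpa using hpP
  obtain ⟨f, _, hf⟩ := (Nat.dvd_prime_pow hp).mp h3
  refine ⟨f, ?_, hf⟩
  rcases Nat.eq_zero_or_pos f with h0 | h0
  · exfalso
    rw [h0, pow_zero, Ideal.absNorm_eq_one_iff] at hf
    exact hP.ne_top hf
  · exact h0

/-- the data at one prime -/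
theorem qcu_one {K : Type} [Field K] [NumberField K] (hK : Module.finrank ℚ K = 2) (κ g : 𝓞 K)
    (D I0 : ℤ) (hD : κ * g = (D : 𝓞 K)) (hI : κ + g = (I0 : 𝓞 K)) (hD0 : D ≠ 0)
    (hk0 : κ ≠ 0) (hN : Ideal.absNorm (Ideal.span {κ}) = D.natAbs) (p : ℕ) (hp : p.Prime)
    (hpD : (p : ℤ) ∣ D) (hpI : ¬ (p : ℤ) ∣ I0) :
    ∃ P : Ideal (𝓞 K), P.IsPrime ∧ P ≠ ⊥ ∧ (p : 𝓞 K) ∈ P ∧ κ ∈ P ∧ Ideal.absNorm P = p ∧
      (∀ Q : Ideal (𝓞 K), Q.IsPrime → (p : 𝓞 K) ∈ Q → κ ∈ Q → Q = P) ∧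
      (∃ Q : Ideal (𝓞 K), Q.IsPrime ∧ (p : 𝓞 K) ∈ Q ∧ Q ≠ P) ∧
      P ^ (D.natAbs.factorization p) ∣ Ideal.span {κ} := by
  have hDn : D.natAbs ≠ 0 := Int.natAbs_ne_zero.mpr hD0
  have hv1 : 1 ≤ D.natAbs.factorization p := by
    rw [← hp.pow_dvd_iff_le_factorization hDn, pow_one]
    exact Int.natCast_dvd.mp hpD
  have hvD : (p : ℤ) ^ (D.natAbs.factorization p) ∣ D := by
    have h := Nat.ordProj_dvd D.natAbs p
    rw [← Int.natCast_dvd] at h
    simpa using h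
  set v := D.natAbs.factorization p with hv
  have hp0 : (p : 𝓞 K) ≠ 0 := by
    exact_mod_cast hp.ne_zero
  -- every prime containing `p` and `κ`
  have key : ∀ P : Ideal (𝓞 K), P.IsPrime → (p : 𝓞 K) ∈ P → κ ∈ P → ∀ e : ℕ,
      P ^ e ∣ Ideal.span {(p : 𝓞 K)} → P ^ (e * v) ∣ Ideal.span {κ} := by
    intro P hP h1 h2 e he
    exact qcu_dvd P hP (cu2_bot P κ hk0 h2) p κ g D hD (cu2_g P hP p hp κ g I0 hI hpI h1 h2)
      e v hvD he
  have key2 : ∀ P : Ideal (𝓞 K), P.IsPrime → (p : 𝓞 K) ∈ P → κ ∈ P → P ^ v ∣ Ideal.span {κ} := by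
    intro P hP h1 h2
    have := key P hP h1 h2 1 (cu2_mem_dvd P _ h1)
    rwa [one_mul] at this
  have norm1 : ∀ P : Ideal (𝓞 K), P.IsPrime → (p : 𝓞 K) ∈ P → κ ∈ P → Ideal.absNorm P = p := by
    intro P hP h1 h2
    obtain ⟨f, hf1, hf⟩ := qcu_norm hK P hP p hp h1
    have h3 : f * v ≤ v := by
      refine cu2_le κ D hD0 hN p hp (P ^ v) _ (key2 P hP h1 h2) ?_
      rw [map_pow, hf, pow_mul]
    have h4 : f = 1 := by
      have : f * v ≤ 1 * v := by omega
      have := Nat.le_of_mul_le_mul_right this (by omega)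
      omega
    rw [hf, h4, pow_one]
  have uniq : ∀ P Q : Ideal (𝓞 K), P.IsPrime → (p : 𝓞 K) ∈ P → κ ∈ P → Q.IsPrime →
      (p : 𝓞 K) ∈ Q → κ ∈ Q → Q = P := by
    intro P Q hP h1 h2 hQ h3 h4
    by_contra hne
    have hPb := cu2_bot P κ hk0 h2
    have hQb := cu2_bot Q κ hk0 h4
    have : P.IsMaximal := hP.isMaximal hPb
    have : Q.IsMaximal := hQ.isMaximal hQb
    have hco : IsCoprime (P ^ v) (Q ^ v) :=
      (Ideal.isCoprime_of_isMaximal (fun h => hne h.symm)).pow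
    have h5 : P ^ v * Q ^ v ∣ Ideal.span {κ} := hco.mul_dvd (key2 P hP h1 h2) (key2 Q hQ h3 h4)
    have h6 : v + v ≤ v := by
      refine cu2_le κ D hD0 hN p hp _ _ h5 ?_
      rw [map_mul, map_pow, map_pow, norm1 P hP h1 h2, norm1 Q hQ h3 h4, pow_add]
    omega
  -- existence
  have hex : ∃ P : Ideal (𝓞 K), P.IsPrime ∧ (p : 𝓞 K) ∈ P ∧ κ ∈ P := by
    by_cases hJ : Ideal.span {(p : 𝓞 K)} ⊔ Ideal.span {κ} = ⊤
    · exfalso
      have h1 : (1 : 𝓞 K) ∈ Ideal.span {(p : 𝓞 K)} ⊔ Ideal.span {κ} := by rw [hJ]; trivial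
      obtain ⟨y, hy, z, hz, hyz⟩ := Submodule.mem_sup.mp h1
      obtain ⟨a, ha⟩ := Ideal.mem_span_singleton'.mp hy
      have hcard : Nat.card (𝓞 K ⧸ Ideal.span {κ}) = D.natAbs := by
        rw [← hN, Ideal.absNorm_apply]
        exact (Submodule.cardQuot_apply _).symm
      have : Fact p.Prime := ⟨hp⟩
      have : Finite (𝓞 K ⧸ Ideal.span {κ}) := by
        apply Nat.finite_of_card_ne_zero
        rw [hcard]
        exact hDn
      obtain ⟨w, hw⟩ := exists_prime_addOrderOf_dvd_card' (G := 𝓞 K ⧸ Ideal.span {κ}) p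
        (by rw [hcard]; exact Int.natCast_dvd.mp hpD)
      have hw0 : w ≠ 0 := by
        intro h0
        rw [h0, addOrderOf_zero] at hw
        exact hp.one_lt.ne hw
      apply hw0
      have hpw : (p : 𝓞 K ⧸ Ideal.span {κ}) * w = 0 := by
        rw [← nsmul_eq_mul, ← hw]
        exact addOrderOf_nsmul_eq_zero w
      have hz0 : Ideal.Quotient.mk (Ideal.span {κ}) z = 0 := Ideal.Quotient.eq_zero_iff_mem.mpr hz
      have h2 : Ideal.Quotient.mk (Ideal.span {κ}) (y + z) = 1 := by rw [hyz, map_one]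
      rw [map_add, hz0, add_zero, ← ha, map_mul, map_natCast] at h2
      calc w = 1 * w := (one_mul w).symm
        _ = Ideal.Quotient.mk (Ideal.span {κ}) a * ((p : 𝓞 K ⧸ Ideal.span {κ}) * w) := by
          rw [← h2, mul_assoc]
        _ = 0 := by rw [hpw, mul_zero]
    · obtain ⟨P, hPm, hPle⟩ := Ideal.exists_le_maximal _ hJ
      refine ⟨P, hPm.isPrime, ?_, ?_⟩
      · exact hPle (Ideal.mem_sup_left (Ideal.mem_span_singleton_self _))
      · exact hPle (Ideal.mem_sup_right (Ideal.mem_span_singleton_self _))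
  obtain ⟨P, hP, hpP, hkP⟩ := hex
  have hPb := cu2_bot P κ hk0 hkP
  refine ⟨P, hP, hPb, hpP, hkP, norm1 P hP hpP hkP, fun Q hQ h1 h2 => uniq P Q hP hpP hkP hQ h1 h2,
    ?_, key2 P hP hpP hkP⟩
  by_contra hno
  push Not at hno
  have hsb : Ideal.span {(p : 𝓞 K)} ≠ ⊥ := by
    rw [Ne, Ideal.span_singleton_eq_bot]
    exact hp0
  have hall : ∀ Q ∈ UniqueFactorizationMonoid.normalizedFactors (Ideal.span {(p : 𝓞 K)}),
      Q = P := by
    intro Q hQ
    have hQp := UniqueFactorizationMonoid.prime_of_normalized_factor Q hQ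
    have hQd := UniqueFactorizationMonoid.dvd_of_mem_normalizedFactors hQ
    apply hno Q (Ideal.isPrime_of_prime hQp)
    rwa [Ideal.dvd_span_singleton] at hQd
  have hprod := Ideal.prod_normalizedFactors_eq_self hsb
  have hrep := Multiset.eq_replicate_of_mem hall
  set e := Multiset.card (UniqueFactorizationMonoid.normalizedFactors (Ideal.span {(p : 𝓞 K)}))
  rw [hrep, Multiset.prod_replicate] at hprod
  have hnp : Ideal.absNorm (Ideal.span {(p : 𝓞 K)}) = p ^ 2 := by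
    rw [Ideal.absNorm_span_singleton]
    have h2 : ((p : ℕ) : 𝓞 K) = algebraMap ℤ (𝓞 K) (p : ℤ) := by simp
    rw [h2, Algebra.norm_algebraMap, RingOfIntegers.rank, hK, Int.natAbs_pow, Int.natAbs_natCast]
  have he3 : e = 2 := by
    rw [← hprod, map_pow, norm1 P hP hpP hkP] at hnp
    exact Nat.pow_right_injective hp.two_le hnp
  have h7 := key P hP hpP hkP e (by rw [hprod])
  have h8 : e * v ≤ v := by
    refine cu2_le κ D hD0 hN p hp _ _ h7 ?_
    rw [map_pow, norm1 P hP hpP hkP]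
  rw [he3] at h8
  omega

/-- the norm of `β` -/
theorem qcu_absNorm {K : Type} [Field K] [NumberField K] (τ : K →+* K) (β : 𝓞 K) (a b : ℤ)
    (h : QF K τ β a b) : Ideal.absNorm (Ideal.span {β}) = b.natAbs := by
  let e : K ≃+* K := RingEquiv.ofRingHom τ τ (RingHom.ext h.inv) (RingHom.ext h.inv)
  let e' : K ≃ₐ[ℚ] K := AlgEquiv.ofRingEquiv (f := e) (fun q => by
    show τ (algebraMap ℚ K q) = algebraMap ℚ K q
    simp)
  have h1 : Algebra.norm ℚ (τ (β : K)) = Algebra.norm ℚ (β : K) :=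
    Algebra.norm_eq_of_algEquiv e' (β : K)
  have h2 : Algebra.norm ℚ (β : K) ^ 2 = (b : ℚ) ^ 2 := by
    have h3 : Algebra.norm ℚ ((β : K) * τ (β : K)) = Algebra.norm ℚ (algebraMap ℚ K (b : ℚ)) := by
      rw [h.mul]
      congr 1
      simp
    rw [map_mul, h1, Algebra.norm_algebraMap, h.deg] at h3
    rw [pow_two]
    exact h3
  have h4 : (Algebra.norm ℤ β : ℤ) ^ 2 = b ^ 2 := by
    rw [← Algebra.coe_norm_int] at h2
    exact_mod_cast h2
  rw [Ideal.absNorm_span_singleton]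
  exact Int.natAbs_eq_iff_sq_eq.mpr (by rw [h4])

theorem st_QCU : ST_QCU := by
  intro K _ _ τ β a b hqf m p hinj hpp hpd hpa
  obtain ⟨g, hg⟩ : ∃ g : 𝓞 K, g = ((-a : ℤ) : 𝓞 K) - β := ⟨_, rfl⟩
  have hgK : algebraMap (𝓞 K) K g = τ (β : K) := by
    rw [hg, map_sub, map_intCast]
    have := hqf.add
    change _ - (β : K) = _
    push_cast
    rw [← this]
    ring
  have hD : β * g = (b : 𝓞 K) := by
    apply RingOfIntegers.coe_injective
    rw [map_mul, hgK, map_intCast]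
    exact hqf.mul
  have hI : β + g = ((-a : ℤ) : 𝓞 K) := by rw [hg]; ring
  have hb0 := hqf.b0
  have hk0 : β ≠ 0 := by
    intro h0
    rw [h0, zero_mul] at hD
    apply hb0
    exact_mod_cast hD.symm
  have hN := qcu_absNorm τ β a b hqf
  have hone := fun j => qcu_one hqf.deg β g b (-a) hD hI hb0 hk0 hN (p j)
    (hpp j) (hpd j) (by rw [dvd_neg]; exact hpa j)
  choose P hP using hone
  have hPinj : Function.Injective P := by
    intro i j hij
    apply hinj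
    rw [← (hP i).2.2.2.2.1, ← (hP j).2.2.2.2.1, hij]
  have hdvd : (∏ j, P j ^ (b.natAbs.factorization (p j))) ∣ Ideal.span {β} := by
    apply Finset.prod_dvd_of_coprime
    · intro i _ j _ hij
      have : (P i).IsMaximal := (hP i).1.isMaximal (hP i).2.1
      have : (P j).IsMaximal := (hP j).1.isMaximal (hP j).2.1
      exact (Ideal.isCoprime_of_isMaximal (fun h => hij (hPinj h))).pow
    · intro j _
      exact (hP j).2.2.2.2.2.2.2
  obtain ⟨𝔞, h𝔞⟩ := hdvd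
  refine ⟨P, 𝔞, ⟨hqf, hinj, hpp, hpd, hpa, hPinj, fun j => ⟨(hP j).1, (hP j).2.1⟩,
    fun j => (hP j).2.2.1, fun j => (hP j).2.2.2.1, fun j => (hP j).2.2.2.2.1,
    fun j => (hP j).2.2.2.2.2.1, fun j => (hP j).2.2.2.2.2.2.1, ?_, ?_⟩⟩
  · rw [h𝔞, mul_comm]
  · have h9 : Ideal.absNorm (∏ j, P j ^ (b.natAbs.factorization (p j))) =
        ∏ j, p j ^ (b.natAbs.factorization (p j)) := by
      rw [map_prod]
      apply Finset.prod_congr rfl
      intro j _
      rw [map_pow, (hP j).2.2.2.2.1]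
    have h10 := congrArg Ideal.absNorm h𝔞
    rw [map_mul, h9, hN] at h10
    rw [mul_comm]
    exact h10.symm

end Pool.Helper99.SZ
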